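import Mathlib

/-!
# The nested matching weight (MP_381749_lc, sums of Pfaffians)

For a strictly increasing `κ : Fin (2k+1) → ℤ`, deleting the element number `r` and matching it
with `κ q`, the others being matched in the nested way, has a weight `hw κ q r` which is maximal
exactly at two neighbouring places.
-/

namespace Pool.PF

open Finset

/-- nested weight of a list of even length (every pair counted twice) -/
def nw {n : ℕ} (f : Fin n → ℤ) : ℤ := ∑ s, (f s.rev - f s) ^ 2

lemma nw_nonneg {n : ℕ} (f : Fin n → ℤ) : 0 ≤ nw f :=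
  Finset.sum_nonneg fun _ _ => sq_nonneg _

lemma rev_ne_self {k : ℕ} (s : Fin (2 * k)) : s.rev ≠ s := by
  intro h
  have := congrArg Fin.val h
  rw [Fin.val_rev] at this
  have := s.2
  omega

lemma nw_update {k : ℕ} (f g : Fin (2 * k) → ℤ) (t : Fin (2 * k)) (h : ∀ s, s ≠ t → f s = g s) :
    nw f - nw g = 2 * ((f t - f t.rev) ^ 2 - (g t - f t.rev) ^ 2) := by
  have hr : f t.rev = g t.rev := h _ (rev_ne_self t)
  unfold nw
  rw [← Finset.sum_sub_distrib]
  have hsub : ({t, t.rev} : Finset (Fin (2 * k))) ⊆ Finset.univ := Finset.subset_univ _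
  rw [← Finset.sum_subset hsub]
  · rw [Finset.sum_pair (rev_ne_self t).symm, Fin.rev_rev, ← hr]
    ring
  · intro s _ hs
    simp only [Finset.mem_insert, Finset.mem_singleton, not_or] at hs
    have h1 : f s = g s := h s hs.1
    have h2 : f s.rev = g s.rev := by
      apply h
      intro h3
      apply hs.2
      rw [← h3, Fin.rev_rev]
    rw [h1, h2]; ring

/-- weight of the matching with `κ q` matched to `κ r` and the rest nested -/
def hw {k : ℕ} (κ : Fin (2 * k + 1) → ℤ) (q r : Fin (2 * k + 1)) : ℤ :=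
  2 * (κ r - κ q) ^ 2 + nw (fun s => κ (r.succAbove s))

lemma succAbove_castSucc_self' {n : ℕ} (t : Fin n) : t.castSucc.succAbove t = t.succ := by
  rw [Fin.succAbove_castSucc_self]

lemma hw_step {k : ℕ} (κ : Fin (2 * k + 1) → ℤ) (q : Fin (2 * k + 1)) (t : Fin (2 * k)) :
    hw κ q t.castSucc - hw κ q t.succ =
      4 * (κ t.succ - κ t.castSucc) * (κ q - κ (t.castSucc.succAbove t.rev)) := by
  have h1 := nw_update (fun s => κ (t.castSucc.succAbove s)) (fun s => κ (t.succ.succAbove s)) t
    (by
      intro s hs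
      rcases lt_or_gt_of_ne hs with h | h
      · simp only [Fin.succAbove_castSucc_of_lt _ _ h, Fin.succAbove_succ_of_le _ _ h.le]
      · simp only [Fin.succAbove_castSucc_of_le _ _ h.le, Fin.succAbove_succ_of_lt _ _ h])
  simp only [Fin.succAbove_castSucc_self, Fin.succAbove_succ_self] at h1
  unfold hw
  linear_combination h1


/-- the index of the nested partner -/
lemma succAbove_rev_lt {k : ℕ} {t t' : Fin (2 * k)} (h : t < t') :
    t'.castSucc.succAbove t'.rev < t.castSucc.succAbove t.rev := by
  have hv : ∀ t : Fin (2 * k), (t.castSucc.succAbove t.rev : ℕ) =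
      if (t : ℕ) ≤ 2 * k - 1 - t then 2 * k - t else 2 * k - 1 - t := by
    intro t
    have h2 := t.2
    have h3 : (t.rev : ℕ) = 2 * k - 1 - t := by rw [Fin.val_rev]; omega
    split_ifs with hle
    · rw [Fin.succAbove_castSucc_of_le _ _ (by rw [Fin.le_def, h3]; exact hle), Fin.val_succ, h3]
      omega
    · rw [Fin.succAbove_castSucc_of_lt _ _ (by rw [Fin.lt_def, h3]; omega), Fin.val_castSucc, h3]
  rw [Fin.lt_def, hv, hv]
  have h1 : (t : ℕ) < t' := h
  have h2 := t'.2
  split_ifs <;> omega

section

variable {k : ℕ} {κ : Fin (2 * k + 1) → ℤ} (hκ : StrictMono κ) (t : Fin (2 * k))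

include hκ

omit hκ in
lemma hw_eq : hw κ (t.castSucc.succAbove t.rev) t.castSucc =
    hw κ (t.castSucc.succAbove t.rev) t.succ := by
  have := hw_step κ (t.castSucc.succAbove t.rev) t
  rw [sub_self, mul_zero] at this
  linarith

lemma hw_lt_left {s : Fin (2 * k)} (hs : s < t) :
    hw κ (t.castSucc.succAbove t.rev) s.castSucc < hw κ (t.castSucc.succAbove t.rev) s.succ := by
  have h1 := hw_step κ (t.castSucc.succAbove t.rev) s
  have h2 := hκ (succAbove_rev_lt hs)
  have h3 : κ s.castSucc < κ s.succ := hκ (Fin.castSucc_lt_succ)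
  nlinarith

lemma hw_lt_right {s : Fin (2 * k)} (hs : t < s) :
    hw κ (t.castSucc.succAbove t.rev) s.succ < hw κ (t.castSucc.succAbove t.rev) s.castSucc := by
  have h1 := hw_step κ (t.castSucc.succAbove t.rev) s
  have h2 := hκ (succAbove_rev_lt hs)
  have h3 : κ s.castSucc < κ s.succ := hκ (Fin.castSucc_lt_succ)
  nlinarith

/-- the weight is smaller at all other places -/
theorem hw_lt {r : Fin (2 * k + 1)} (h1 : r ≠ t.castSucc) (h2 : r ≠ t.succ) :
    hw κ (t.castSucc.succAbove t.rev) r < hw κ (t.castSucc.succAbove t.rev) t.castSucc := by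
  have hl : ∀ d : ℕ, ∀ r : Fin (2 * k + 1), (r : ℕ) + d + 1 = t →
      hw κ (t.castSucc.succAbove t.rev) r < hw κ (t.castSucc.succAbove t.rev) t.castSucc := by
    intro d
    induction d with
    | zero =>
      intro r hr
      have ht := t.2
      have e1 : r = (⟨r, by omega⟩ : Fin (2 * k)).castSucc := by ext; simp
      have e2 : t.castSucc = (⟨r, by omega⟩ : Fin (2 * k)).succ := by ext; simp; omega
      have h := hw_lt_left hκ t (s := ⟨r, by omega⟩) (by rw [Fin.lt_def]; simp; omega)
      rw [← e1, ← e2] at h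
      exact h
    | succ d ih =>
      intro r hr
      have ht := t.2
      have e1 : r = (⟨r, by omega⟩ : Fin (2 * k)).castSucc := by ext; simp
      have h := hw_lt_left hκ t (s := ⟨r, by omega⟩) (by rw [Fin.lt_def]; simp; omega)
      rw [← e1] at h
      refine h.trans (ih _ ?_)
      simp; omega
  have hr : ∀ d : ℕ, ∀ r : Fin (2 * k + 1), (r : ℕ) = t + 2 + d →
      hw κ (t.castSucc.succAbove t.rev) r < hw κ (t.castSucc.succAbove t.rev) t.succ := by
    intro d
    induction d with
    | zero =>
      intro r hr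
      have ht := r.2
      have e1 : r = (⟨r - 1, by omega⟩ : Fin (2 * k)).succ := by ext; simp; omega
      have e2 : t.succ = (⟨r - 1, by omega⟩ : Fin (2 * k)).castSucc := by ext; simp; omega
      have h := hw_lt_right hκ t (s := ⟨r - 1, by omega⟩) (by rw [Fin.lt_def]; simp; omega)
      rw [← e1, ← e2] at h
      exact h
    | succ d ih =>
      intro r hr
      have ht := r.2
      have e1 : r = (⟨r - 1, by omega⟩ : Fin (2 * k)).succ := by ext; simp; omega
      have h := hw_lt_right hκ t (s := ⟨r - 1, by omega⟩) (by rw [Fin.lt_def]; simp; omega)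
      rw [← e1] at h
      refine h.trans (ih _ ?_)
      simp; omega
  have hr1 : (r : ℕ) ≠ t := fun h => h1 (by ext; simpa using h)
  have hr2 : (r : ℕ) ≠ t + 1 := fun h => h2 (by ext; simpa using h)
  rcases lt_or_gt_of_ne hr1 with h | h
  · exact hl (t - r - 1) r (by omega)
  · rw [hw_eq t]
    exact hr (r - t - 2) r (by omega)

end

end Pool.PF
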