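import Pool.Agent.Helper97.PF.Basic
import Pool.Agent.Helper97.PF.Nest

/-!
# Rewriting multiples of generic sub-Pfaffians (MP_381749_lc, sums of Pfaffians)
-/

namespace Pool.PF

open MvPolynomial Finset

/-- cells above the diagonal -/
abbrev Cell (N : ℕ) : Type := {p : Fin N × Fin N // p.1 < p.2}

/-- the cell of two different indices -/
def mkCell {N : ℕ} (i j : Fin N) (h : i ≠ j) : Cell N :=
  if hij : i < j then ⟨(i, j), hij⟩ else ⟨(j, i), lt_of_le_of_ne (not_lt.1 hij) h.symm⟩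

lemma mkCell_comm {N : ℕ} (i j : Fin N) (h : i ≠ j) : mkCell i j h = mkCell j i h.symm := by
  unfold mkCell
  rcases lt_or_gt_of_ne h with h1 | h1
  · rw [dif_pos h1, dif_neg h1.le.not_gt]
  · rw [dif_neg h1.le.not_gt, dif_pos h1]

/-- skew function of a function on cells -/
def gsk {R : Type*} [CommRing R] {N : ℕ} (x : Cell N → R) (i j : Fin N) : R :=
  if h : i < j then x ⟨(i, j), h⟩ else if h : j < i then - x ⟨(j, i), h⟩ else 0

section gsk
variable {R : Type*} [CommRing R] {N : ℕ} (x : Cell N → R)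

lemma gsk_skew (i j : Fin N) : gsk x i j = - gsk x j i := by
  unfold gsk
  rcases lt_trichotomy i j with h | h | h
  · rw [dif_pos h, dif_neg h.le.not_gt, dif_pos h, neg_neg]
  · subst h
    simp
  · rw [dif_neg h.le.not_gt, dif_pos h, dif_pos h]

lemma gsk_self (i : Fin N) : gsk x i i = 0 := by
  unfold gsk
  simp

lemma gsk_eq (i j : Fin N) (h : i ≠ j) :
    gsk x i j = x (mkCell i j h) ∨ gsk x i j = - x (mkCell i j h) := by
  unfold gsk mkCell
  rcases lt_or_gt_of_ne h with h1 | h1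
  · left; rw [dif_pos h1, dif_pos h1]
  · right; rw [dif_neg h1.le.not_gt, dif_pos h1, dif_neg h1.le.not_gt]

end gsk

lemma se_ofFn {R : Type*} [CommRing R] {ι : Type*} {n : ℕ} (F : ι → List ι → R)
    (κ : Fin (n + 1) → ι) :
    se F (List.ofFn κ) =
      ∑ r : Fin (n + 1), (-1) ^ (r : ℕ) * F (κ r) (List.ofFn fun s : Fin n => κ (r.succAbove s)) := by
  induction n generalizing F with
  | zero =>
    rw [List.ofFn_succ, se_cons]
    simp
  | succ n ih =>
    rw [List.ofFn_succ, se_cons, ih (F := fun z l' => F z (κ 0 :: l'))]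
    conv_rhs => rw [Fin.sum_univ_succ]
    simp only [Fin.val_zero, pow_zero, one_mul, Fin.zero_succAbove, Fin.val_succ]
    rw [sub_eq_add_neg, ← Finset.sum_neg_distrib]
    congr 1
    refine Finset.sum_congr rfl fun r _ => ?_
    rw [pow_succ]
    have e : (κ 0 :: List.ofFn fun s : Fin n => κ (Fin.succ (r.succAbove s))) =
        List.ofFn fun s : Fin (n + 1) => κ (r.succ.succAbove s) := by
      rw [List.ofFn_succ]
      simp
    rw [e]
    ring

variable {K : Type*} [Field K] {N k : ℕ} {τ : Type*}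

/-- generic sub-Pfaffian -/
noncomputable def gpf (K : Type*) [Field K] {N : ℕ} {τ : Type*} (γ : Cell N → τ) (k : ℕ)
    (f : Fin (2 * k) → Fin N) : MvPolynomial τ K :=
  pfk (gsk fun c => X (γ c)) k (List.ofFn f)

/-- the linear relations -/
lemma gpf_relation (γ : Cell N → τ) (κ : Fin (2 * k + 1) → Fin N) (q : Fin (2 * k + 1)) :
    ∑ r : Fin (2 * k + 1), (-1) ^ (r : ℕ) *
      (gsk (fun c => (X (γ c) : MvPolynomial τ K)) (κ q) (κ r) *
        gpf K γ k fun s => κ (r.succAbove s)) = 0 := by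
  have h := pfk_relation (gsk_skew fun c => (X (γ c) : MvPolynomial τ K)) (gsk_self _) k
    (List.ofFn κ) (κ q) (by rw [List.mem_ofFn]; exact ⟨q, rfl⟩)
  rw [se_ofFn] at h
  exact h

lemma rel_mem (γ : Cell N → τ) {κ : Fin (2 * k + 1) → Fin N} (hκ : Function.Injective κ)
    (q r0 : Fin (2 * k + 1)) (h0 : r0 ≠ q) (u : τ →₀ ℕ) (S : Submodule K (MvPolynomial τ K))
    (hS : ∀ r, r ≠ r0 → (hr : r ≠ q) →
      monomial (u + Finsupp.single (γ (mkCell (κ q) (κ r) (hκ.ne hr.symm))) 1) 1 *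
        gpf K γ k (fun s => κ (r.succAbove s)) ∈ S) :
    monomial (u + Finsupp.single (γ (mkCell (κ q) (κ r0) (hκ.ne h0.symm))) 1) 1 *
        gpf K γ k (fun s => κ (r0.succAbove s)) ∈ S := by
  have hmon : ∀ c : Cell N, (monomial (u + Finsupp.single (γ c) 1) (1:K)) =
      monomial u 1 * X (γ c) := by
    intro c
    rw [X, monomial_mul, mul_one]
  have hterm : ∀ r, (hr : r ≠ q) → ∃ e : K, (e = 1 ∨ e = -1) ∧
      monomial u (1:K) * ((-1) ^ (r : ℕ) *
      (gsk (fun c => (X (γ c) : MvPolynomial τ K)) (κ q) (κ r) *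
        gpf K γ k fun s => κ (r.succAbove s))) =
      e • (monomial (u + Finsupp.single (γ (mkCell (κ q) (κ r) (hκ.ne hr.symm))) 1) 1 *
        gpf K γ k (fun s => κ (r.succAbove s))) := by
    intro r hr
    rcases gsk_eq (fun c => (X (γ c) : MvPolynomial τ K)) (κ q) (κ r) (hκ.ne hr.symm) with h | h <;>
    rcases neg_one_pow_eq_or (MvPolynomial τ K) (r : ℕ) with h' | h'
    · exact ⟨1, Or.inl rfl, by rw [h, h', hmon, one_smul]; ring⟩
    · exact ⟨-1, Or.inr rfl, by rw [h, h', hmon, neg_smul, one_smul]; ring⟩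
    · exact ⟨-1, Or.inr rfl, by rw [h, h', hmon, neg_smul, one_smul]; ring⟩
    · exact ⟨1, Or.inl rfl, by rw [h, h', hmon, one_smul]; ring⟩
  have hrel := congrArg (fun p => monomial u (1:K) * p) (gpf_relation (K := K) γ κ q)
  simp only [mul_zero, Finset.mul_sum] at hrel
  rw [← Finset.add_sum_erase _ _ (Finset.mem_univ r0)] at hrel
  obtain ⟨e, he, hee⟩ := hterm r0 h0
  rw [hee] at hrel
  have hrest : ∑ r ∈ Finset.univ.erase r0, monomial u (1:K) * ((-1) ^ (r : ℕ) *
      (gsk (fun c => (X (γ c) : MvPolynomial τ K)) (κ q) (κ r) *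
        gpf K γ k fun s => κ (r.succAbove s))) ∈ S := by
    refine Submodule.sum_mem _ fun r hr => ?_
    by_cases hrq : r = q
    · subst hrq
      rw [gsk_self]
      simp
    · obtain ⟨e', _, he'⟩ := hterm r hrq
      rw [he']
      exact S.smul_mem _ (hS r (Finset.ne_of_mem_erase hr) hrq)
  have h1 : e • (monomial (u + Finsupp.single (γ (mkCell (κ q) (κ r0) (hκ.ne h0.symm))) 1) (1:K) *
        gpf K γ k (fun s => κ (r0.succAbove s))) ∈ S := by
    rw [eq_neg_of_add_eq_zero_left hrel]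
    exact S.neg_mem hrest
  have hne : e ≠ 0 := by rcases he with rfl | rfl <;> simp
  have h2 := S.smul_mem e⁻¹ h1
  rwa [smul_smul, inv_mul_cancel₀ hne, one_smul] at h2

/-- reduced pairs -/
def Red (γ : Cell N → τ) (u : τ →₀ ℕ) (f : Fin (2 * k) → Fin N) : Prop :=
  ∀ (i : Fin N) (s : Fin (2 * k)) (hi : ∀ s', f s' ≠ i), (∀ s' < s, f s' < i) → i < f s →
    u (γ (mkCell i (f s.rev) (hi _).symm)) = 0

/-- weight of the part `u` -/
def cw (γ : Cell N → τ) (u : τ →₀ ℕ) : ℤ :=
  ∑ c : Cell N, (u (γ c) : ℤ) * (((c.1.2 : ℕ) : ℤ) - ((c.1.1 : ℕ) : ℤ)) ^ 2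

lemma cw_add_single {γ : Cell N → τ} (hγ : Function.Injective γ) (u : τ →₀ ℕ) (i j : Fin N)
    (h : i ≠ j) : cw γ (u + Finsupp.single (γ (mkCell i j h)) 1) =
      cw γ u + (((j : ℕ) : ℤ) - ((i : ℕ) : ℤ)) ^ 2 := by
  classical
  unfold cw
  have e : ∀ c : Cell N, (((u + Finsupp.single (γ (mkCell i j h)) 1 : τ →₀ ℕ) (γ c) : ℕ) : ℤ) =
      (u (γ c) : ℤ) + if c = mkCell i j h then 1 else 0 := by
    intro c
    rw [Finsupp.add_apply, Finsupp.single_apply]
    push_cast
    congr 1
    by_cases hc : c = mkCell i j h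
    · simp [hc]
    · rw [if_neg hc, if_neg (fun h' => hc (hγ h').symm)]
  simp_rw [e, add_mul, Finset.sum_add_distrib, ite_mul, one_mul, zero_mul]
  rw [Finset.sum_ite_eq' Finset.univ (mkCell i j h)]
  simp only [Finset.mem_univ, if_true]
  congr 1
  unfold mkCell
  split_ifs with hij
  · rfl
  · ring

lemma cw_nonneg (γ : Cell N → τ) (u : τ →₀ ℕ) : 0 ≤ cw γ u :=
  Finset.sum_nonneg fun _ _ => by positivity

/-- reduced elements span -/
theorem reduce {γ : Cell N → τ} (hγ : Function.Injective γ) (P : (τ →₀ ℕ) → Prop)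
    (hP : ∀ u c c', P (u + Finsupp.single (γ c) 1) → P (u + Finsupp.single (γ c') 1))
    (S : Submodule K (MvPolynomial τ K))
    (hS : ∀ u (f : Fin (2 * k) → Fin N), StrictMono f → P u → Red γ u f →
      monomial u 1 * gpf K γ k f ∈ S)
    (u : τ →₀ ℕ) (f : Fin (2 * k) → Fin N) (hf : StrictMono f) (hu : P u) :
    monomial u 1 * gpf K γ k f ∈ S := by
  classical
  set W : (τ →₀ ℕ) → (Fin (2 * k) → Fin N) → ℤ := fun u f =>
    2 * cw γ u + nw (fun s => ((f s : ℕ) : ℤ)) with hW
  have hW0 : ∀ u f, 0 ≤ W u f := fun u f => by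
    have := cw_nonneg γ u
    have := nw_nonneg (fun s => ((f s : ℕ) : ℤ))
    simp only [hW]; positivity
  obtain ⟨n, hn⟩ : ∃ n : ℕ, W u f ≤ n := ⟨(W u f).toNat, by rw [Int.toNat_of_nonneg (hW0 u f)]⟩
  induction n using Nat.strong_induction_on generalizing u f with
  | _ n ihn =>
  obtain ⟨m, hm⟩ : ∃ m : ℕ, ∑ s, (f s : ℕ) = m := ⟨_, rfl⟩
  induction m using Nat.strong_induction_on generalizing u f with
  | _ m ihm =>
  by_cases hred : Red γ u f
  · exact hS u f hf hu hred
  unfold Red at hred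
  push Not at hred
  obtain ⟨i, s, hi, h1, h2, h3⟩ := hred
  set c0 : Cell N := mkCell i (f s.rev) (hi _).symm with hc0
  set u' : τ →₀ ℕ := u - Finsupp.single (γ c0) 1 with hu'
  have huu : u = u' + Finsupp.single (γ c0) 1 := by
    rw [hu', tsub_add_cancel_of_le]
    rw [Finsupp.single_le_iff]
    exact Nat.one_le_iff_ne_zero.2 h3
  set κ : Fin (2 * k + 1) → Fin N := Fin.insertNth s.castSucc i f with hκdef
  have hκ0 : κ s.castSucc = i := by rw [hκdef, Fin.insertNth_apply_same]
  have hκa : ∀ j, κ (s.castSucc.succAbove j) = f j := fun j => by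
    rw [hκdef, Fin.insertNth_apply_succAbove]
  have h2' : ∀ s', s ≤ s' → i < f s' := fun s' hs' => h2.trans_le (hf.monotone hs')
  have hκm : StrictMono κ := by
    intro a b hab
    rcases Fin.eq_self_or_eq_succAbove s.castSucc a with ha | ⟨a', ha⟩ <;>
    rcases Fin.eq_self_or_eq_succAbove s.castSucc b with hb | ⟨b', hb⟩
    · rw [ha, hb] at hab; exact absurd hab (lt_irrefl _)
    · rw [ha, hb, hκ0, hκa]
      apply h2'
      rw [ha, hb] at hab
      by_contra hcon
      rw [Fin.succAbove_castSucc_of_lt _ _ (not_le.1 hcon)] at hab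
      exact absurd (Fin.castSucc_lt_castSucc_iff.1 hab) (not_lt.2 (not_le.1 hcon).le)
    · rw [ha, hb, hκ0, hκa]
      apply h1
      rw [ha, hb] at hab
      by_contra hcon
      rw [Fin.succAbove_castSucc_of_le _ _ (not_lt.1 hcon)] at hab
      have h5 : a'.castSucc < s.castSucc := (Fin.castSucc_lt_succ).trans hab
      exact hcon (Fin.castSucc_lt_castSucc_iff.1 h5)
    · rw [ha, hb, hκa, hκa]
      apply hf
      rw [ha, hb] at hab
      exact (Fin.strictMono_succAbove _).lt_iff_lt.1 hab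
  set q : Fin (2 * k + 1) := s.castSucc.succAbove s.rev with hq
  have hqs : s.castSucc ≠ q := (Fin.succAbove_ne _ _).symm
  have hκq : κ q = f s.rev := hκa _
  have hff : (fun j => κ (s.castSucc.succAbove j)) = f := by ext1 j; exact hκa j
  have hcell : mkCell (κ q) (κ s.castSucc) (hκm.injective.ne hqs.symm) = c0 := by
    rw [hc0, mkCell_comm]
    congr 1
  have key := rel_mem (K := K) γ hκm.injective q s.castSucc hqs u' S ?_
  · rw [hcell, hff, ← huu] at key
    exact key
  -- the other terms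
  intro r hr hrq
  have hfr : StrictMono fun j => κ (r.succAbove j) := hκm.comp (Fin.strictMono_succAbove r)
  have hPr : P (u' + Finsupp.single (γ (mkCell (κ q) (κ r) (hκm.injective.ne hrq.symm))) 1) := by
    apply hP u' c0
    rw [← huu]; exact hu
  set κZ : Fin (2 * k + 1) → ℤ := fun j => ((κ j : ℕ) : ℤ) with hκZ
  have hκZm : StrictMono κZ := fun a b hab => by
    have := hκm hab
    simp only [hκZ]
    exact_mod_cast this
  have hWr : ∀ r (hrq : r ≠ q),
      W (u' + Finsupp.single (γ (mkCell (κ q) (κ r) (hκm.injective.ne hrq.symm))) 1)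
        (fun j => κ (r.succAbove j)) = 2 * cw γ u' + hw κZ q r := by
    intro r hrq
    simp only [hW, cw_add_single hγ, hw, hκZ]
    ring
  have hWf : W u f = 2 * cw γ u' + hw κZ q s.castSucc := by
    rw [← hWr s.castSucc hqs, hcell, ← huu]
    congr 1
    exact hff.symm
  by_cases hrs : r = s.succ
  · -- equal weight, smaller sum
    refine ihm (∑ j, (κ (r.succAbove j) : ℕ)) ?_ _ _ hfr hPr ?_ rfl
    · have e1 : ∑ j, (κ j : ℕ) = (κ r : ℕ) + ∑ j, (κ (r.succAbove j) : ℕ) :=
        Fin.sum_univ_succAbove (fun j => (κ j : ℕ)) r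
      have e2 : ∑ j, (κ j : ℕ) = (κ s.castSucc : ℕ) + ∑ j, (κ (s.castSucc.succAbove j) : ℕ) :=
        Fin.sum_univ_succAbove (fun j => (κ j : ℕ)) s.castSucc
      have e3 : ∑ j, (κ (s.castSucc.succAbove j) : ℕ) = m := by
        rw [← hm]
        exact Finset.sum_congr rfl fun j _ => by rw [hκa]
      have e4 : (κ s.castSucc : ℕ) < κ r := by
        rw [hrs]; exact hκm (Fin.castSucc_lt_succ)
      omega
    · rw [hWr r hrq, hrs, ← hw_eq (κ := κZ) s, ← hWf]
      exact hn
  · have hlt := hw_lt hκZm s hr hrs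
    have hlt2 : W (u' + Finsupp.single (γ (mkCell (κ q) (κ r) (hκm.injective.ne hrq.symm))) 1)
        (fun j => κ (r.succAbove j)) < W u f := by
      rw [hWr r hrq, hWf]
      linarith
    have hn0 : 0 < n := by
      have := hW0 (u' + Finsupp.single (γ (mkCell (κ q) (κ r) (hκm.injective.ne hrq.symm))) 1)
        (fun j => κ (r.succAbove j))
      have : (0:ℤ) < n := by linarith
      exact_mod_cast this
    refine ihn (n - 1) (by omega) _ _ hfr hPr ?_
    have : (0:ℤ) ≤ W (u' + Finsupp.single (γ (mkCell (κ q) (κ r) (hκm.injective.ne hrq.symm))) 1)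
        (fun j => κ (r.succAbove j)) := hW0 _ _
    push_cast [Nat.cast_sub hn0]
    linarith

end Pool.PF
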