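import Pool.Agent.Helper97.PF.Forb
import Pool.Agent.SDD.Defs

/-!
# Sub-Pfaffians of the generic alternating matrix form a tower (MP_381749_lc)
-/

namespace Pool.PF

open MvPolynomial Finset
open scoped ENNReal

variable {K : Type*} [Field K] {N : ℕ}

/-- a Pfaffian of an arbitrary list of indices is zero or, up to sign, a Pfaffian of an increasing
list -/
lemma pfk_list_mem {τ : Type*} (γ : Cell N → τ) (k : ℕ) (l : List (Fin N)) :
    pfk (gsk fun c => (X (γ c) : MvPolynomial τ K)) k l = 0 ∨
      ∃ f : Fin (2 * k) ↪o Fin N,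
        pfk (gsk fun c => (X (γ c) : MvPolynomial τ K)) k l = gpf K γ k f ∨
        pfk (gsk fun c => (X (γ c) : MvPolynomial τ K)) k l = - gpf K γ k f := by
  classical
  by_cases hlen : l.length = 2 * k
  swap
  · exact Or.inl (pfk_eq_zero_of_length hlen)
  by_cases hnd : l.Nodup
  swap
  · exact Or.inl ((pfk_alt (gsk_skew _) k).dup (pfk_dup (gsk_self _) k) hnd)
  right
  have hcard : #(l.toFinset) = 2 * k := by
    rw [List.toFinset_card_of_nodup hnd, hlen]
  set f : Fin (2 * k) ↪o Fin N := l.toFinset.orderEmbOfFin hcard with hf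
  refine ⟨f, ?_⟩
  have hperm : l.Perm (List.ofFn f) := by
    rw [List.perm_ext_iff_of_nodup hnd (List.nodup_ofFn_ofInjective f.injective)]
    intro a
    rw [List.mem_ofFn]
    have h1 : a ∈ Set.range f ↔ a ∈ l.toFinset := by
      rw [hf, Finset.range_orderEmbOfFin]
      exact Finset.mem_coe
    rw [← List.mem_toFinset]
    exact h1.symm
  exact (pfk_alt (gsk_skew fun c => (X (γ c) : MvPolynomial τ K)) k).perm hperm

lemma gsk_mem_X {τ : Type*} (γ : Cell N → τ) (i j : Fin N) :
    gsk (fun c => (X (γ c) : MvPolynomial τ K)) i j = 0 ∨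
      ∃ c, gsk (fun c => (X (γ c) : MvPolynomial τ K)) i j = X (γ c) ∨
        gsk (fun c => (X (γ c) : MvPolynomial τ K)) i j = - X (γ c) := by
  by_cases h : i = j
  · subst h
    exact Or.inl (gsk_self _ _)
  · right
    exact ⟨mkCell i j h, gsk_eq _ i j h⟩

/-- the family of sub-Pfaffians -/
noncomputable def pfam (K : Type*) [Field K] (N : ℕ) (k : ℕ) (f : Fin (2 * k) ↪o Fin N) :
    MvPolynomial (Cell N) K :=
  gpf K id k f

theorem pfam_tower : Pool.SDD.Tower (K := K) (pfam K N) where
  der := by
    intro k f e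
    unfold pfam gpf
    rw [pfk_derivation (pderiv e)]
    refine pe_mem _ ?_
    intro y z l' _
    have h1 : pfk (gsk fun c => (X (id c) : MvPolynomial (Cell N) K)) k l' ∈
        Submodule.span K (Set.range fun g : Fin (2 * k) ↪o Fin N =>
          pfk (gsk fun c => (X (id c) : MvPolynomial (Cell N) K)) k (List.ofFn g)) := by
      rcases pfk_list_mem (K := K) (id : Cell N → Cell N) k l' with h | ⟨g, h | h⟩
      · rw [h]; exact Submodule.zero_mem _
      · rw [h]; exact Submodule.subset_span ⟨g, rfl⟩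
      · rw [h]; exact Submodule.neg_mem _ (Submodule.subset_span ⟨g, rfl⟩)
    have h2 : ∃ a : K, pderiv e (gsk (fun c => (X (id c) : MvPolynomial (Cell N) K)) y z) = C a := by
      rcases gsk_mem_X (K := K) (id : Cell N → Cell N) y z with h | ⟨c, h | h⟩
      · exact ⟨0, by rw [h]; simp⟩
      · rw [h]
        by_cases hc : c = e
        · subst hc; exact ⟨1, by simp⟩
        · exact ⟨0, by rw [id, pderiv_X_of_ne hc]; simp⟩
      · rw [h]
        by_cases hc : c = e
        · subst hc; exact ⟨-1, by simp⟩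
        · exact ⟨0, by rw [map_neg, id, pderiv_X_of_ne hc]; simp⟩
    obtain ⟨a, ha⟩ := h2
    rw [ha, ← smul_eq_C_mul]
    exact Submodule.smul_mem _ _ h1
  eul := by
    intro k f
    unfold pfam gpf
    have hlen : 2 * (k + 1) = (2 * k + 1) + 1 := by ring
    obtain ⟨x, l, hl⟩ : ∃ x l, List.ofFn f = x :: l := by
      cases h : List.ofFn f with
      | nil =>
        have := congrArg List.length h
        rw [List.length_ofFn] at this
        simp at this
      | cons x l => exact ⟨x, l, rfl⟩
    rw [hl, pfk_succ_cons]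
    refine se_mem _ ?_
    intro z l' _
    rcases gsk_mem_X (K := K) (id : Cell N → Cell N) x z with h | ⟨c, h | h⟩ <;>
      rcases pfk_list_mem (K := K) (id : Cell N → Cell N) k l' with h' | ⟨g, h' | h'⟩ <;>
      rw [h, h']
    · simp
    · simp
    · simp
    · simp
    · exact Submodule.subset_span ⟨c, g, rfl⟩
    · rw [mul_neg]; exact Submodule.neg_mem _ (Submodule.subset_span ⟨c, g, rfl⟩)
    · simp
    · rw [neg_mul]; exact Submodule.neg_mem _ (Submodule.subset_span ⟨c, g, rfl⟩)
    · rw [neg_mul_neg]; exact Submodule.subset_span ⟨c, g, rfl⟩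

theorem pfam_reduces (k : ℕ) : Pool.SDD.Reduces (K := K) (pfam K N k) forb := by
  intro ν f
  refine Submodule.span_mono ?_ (gpf_hred (K := K) f ν)
  rintro p ⟨ν', g, h1, h2, h3⟩
  refine ⟨ν', g, h1, ?_, h3⟩
  rw [Finset.disjoint_right]
  intro e he hs
  rw [Finsupp.mem_support_iff] at hs
  exact hs (h2 e he)

end Pool.PF
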