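import Mathlib

/-!
# Pfaffians of lists of indices (MP_381749_lc, sums of Pfaffians)

`pfk a k l` is the Pfaffian of the skew function `a` on the list of indices `l` (of length `2 k`),
defined by expansion along the first index; it is zero if the length of `l` is not `2 k`.
-/

namespace Pool.PF

variable {R : Type*} [CommRing R] {ι : Type*}

/-- alternating sum over the elements of a list: `∑ j, (-1)^j F (l j) (l without j)` -/
def se (F : ι → List ι → R) : List ι → R
  | [] => 0
  | y :: l => F y l - se (fun z l' => F z (y :: l')) l

/-- Pfaffian of a list of indices, number of pairs `k` -/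
def pfk (a : ι → ι → R) : ℕ → List ι → R
  | 0, [] => 1
  | 0, _ :: _ => 0
  | _ + 1, [] => 0
  | k + 1, x :: l => se (fun y l' => a x y * pfk a k l') l

/-- sum over pairs of elements of a list, with the sign `(-1)^(v-u-1)` -/
def pe (F : ι → ι → List ι → R) : List ι → R
  | [] => 0
  | x :: l => se (fun y l' => F x y l') l + pe (fun y z l' => F y z (x :: l')) l

@[simp] lemma se_nil (F : ι → List ι → R) : se F [] = 0 := rfl
lemma se_cons (F : ι → List ι → R) (y : ι) (l : List ι) :
    se F (y :: l) = F y l - se (fun z l' => F z (y :: l')) l := rfl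
@[simp] lemma pfk_zero_nil (a : ι → ι → R) : pfk a 0 [] = 1 := rfl
@[simp] lemma pfk_zero_cons (a : ι → ι → R) (x : ι) (l : List ι) : pfk a 0 (x :: l) = 0 := rfl
@[simp] lemma pfk_succ_nil (a : ι → ι → R) (k : ℕ) : pfk a (k + 1) [] = 0 := rfl
lemma pfk_succ_cons (a : ι → ι → R) (k : ℕ) (x : ι) (l : List ι) :
    pfk a (k + 1) (x :: l) = se (fun y l' => a x y * pfk a k l') l := rfl
@[simp] lemma pe_nil (F : ι → ι → List ι → R) : pe F [] = 0 := rfl
lemma pe_cons (F : ι → ι → List ι → R) (x : ι) (l : List ι) :
    pe F (x :: l) = se (fun y l' => F x y l') l + pe (fun y z l' => F y z (x :: l')) l := rfl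

lemma se_add (F G : ι → List ι → R) (l : List ι) :
    se (fun y l' => F y l' + G y l') l = se F l + se G l := by
  induction l generalizing F G with
  | nil => simp
  | cons y l ih => rw [se_cons, se_cons, se_cons, ih]; ring

lemma se_neg (F : ι → List ι → R) (l : List ι) :
    se (fun y l' => - F y l') l = - se F l := by
  induction l generalizing F with
  | nil => simp
  | cons y l ih => rw [se_cons, se_cons, ih]; ring

lemma se_sub (F G : ι → List ι → R) (l : List ι) :
    se (fun y l' => F y l' - G y l') l = se F l - se G l := by
  induction l generalizing F G with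
  | nil => simp
  | cons y l ih => rw [se_cons, se_cons, se_cons, ih]; ring

lemma se_mul_left (c : R) (F : ι → List ι → R) (l : List ι) :
    se (fun y l' => c * F y l') l = c * se F l := by
  induction l generalizing F with
  | nil => simp
  | cons y l ih => rw [se_cons, se_cons, ih]; ring

lemma se_zero (l : List ι) : se (fun _ _ => (0 : R)) l = 0 := by
  induction l with
  | nil => rfl
  | cons y l ih => rw [se_cons, ih]; ring

lemma se_congr {F G : ι → List ι → R} {l : List ι}
    (h : ∀ z l', l.Perm (z :: l') → F z l' = G z l') : se F l = se G l := by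
  induction l generalizing F G with
  | nil => rfl
  | cons y l ih =>
    rw [se_cons, se_cons, h y l (List.Perm.refl _)]
    congr 1
    apply ih
    intro z l' hl
    apply h
    exact (hl.cons y).trans (List.Perm.swap z y l')

lemma se_mem {M : Type*} [SetLike M R] [AddSubgroupClass M R] (S : M) {F : ι → List ι → R}
    {l : List ι} (h : ∀ z l', l.Perm (z :: l') → F z l' ∈ S) : se F l ∈ S := by
  induction l generalizing F with
  | nil => exact zero_mem S
  | cons y l ih =>
    rw [se_cons]
    refine sub_mem (h y l (List.Perm.refl _)) (ih fun z l' hl => h z (y :: l') ?_)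
    exact (hl.cons y).trans (List.Perm.swap z y l')

lemma pe_mem {M : Type*} [SetLike M R] [AddSubgroupClass M R] (S : M) {F : ι → ι → List ι → R}
    {l : List ι} (h : ∀ y z l', l.Perm (y :: z :: l') → F y z l' ∈ S) : pe F l ∈ S := by
  induction l generalizing F with
  | nil => exact zero_mem S
  | cons x l ih =>
    rw [pe_cons]
    refine add_mem (se_mem S fun z l' hl => h x z l' (hl.cons x)) (ih fun y z l' hl => ?_)
    apply h
    refine (hl.cons x).trans ?_
    exact (List.Perm.swap y x _).trans ((List.Perm.swap z x _).cons y)

/-- alternating functions of lists, first property -/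
def Alt (G : List ι → R) : Prop :=
  ∀ (l₁ : List ι) (x y : ι) (l₂ : List ι), G (l₁ ++ x :: y :: l₂) = - G (l₁ ++ y :: x :: l₂)

/-- second property -/
def Dup (G : List ι → R) : Prop :=
  ∀ (l₁ : List ι) (x : ι) (l₂ : List ι), G (l₁ ++ x :: x :: l₂) = 0

lemma Alt.cons {G : List ι → R} (h : Alt G) (x : ι) : Alt fun l => G (x :: l) :=
  fun l₁ y z l₂ => h (x :: l₁) y z l₂

lemma Dup.cons {G : List ι → R} (h : Dup G) (x : ι) : Dup fun l => G (x :: l) :=
  fun l₁ y l₂ => h (x :: l₁) y l₂

lemma se_alt {F : ι → List ι → R} (h : ∀ z, Alt (F z)) : Alt (se F) := by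
  intro l₁
  induction l₁ generalizing F with
  | nil =>
    intro x y l₂
    simp only [List.nil_append, se_cons]
    have e : se (fun z l' => F z (x :: y :: l')) l₂ = - se (fun z l' => F z (y :: x :: l')) l₂ := by
      rw [← se_neg]
      congr 1
      ext z l'
      exact h z [] x y l'
    rw [e]; ring
  | cons w l₁ ih =>
    intro x y l₂
    simp only [List.cons_append, se_cons]
    rw [h w l₁ x y l₂, ih (F := fun z l' => F z (w :: l')) (fun z => (h z).cons w) x y l₂]
    ring

lemma se_dup {F : ι → List ι → R} (h : ∀ z, Dup (F z)) : Dup (se F) := by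
  intro l₁
  induction l₁ generalizing F with
  | nil =>
    intro x l₂
    simp only [List.nil_append, se_cons]
    have e : se (fun z l' => F z (x :: x :: l')) l₂ = 0 := by
      rw [← se_zero l₂]
      congr 1
      ext z l'
      exact h z [] x l'
    rw [e]; ring
  | cons w l₁ ih =>
    intro x l₂
    simp only [List.cons_append, se_cons]
    rw [h w l₁ x l₂, ih (F := fun z l' => F z (w :: l')) (fun z => (h z).cons w) x l₂]
    ring

/-- antisymmetry of the double sum -/
lemma se_se_swap (f g : ι → R) (G : List ι → R) (l : List ι) :
    se (fun z l' => f z * se (fun w l'' => g w * G l'') l') l =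
      - se (fun z l' => g z * se (fun w l'' => f w * G l'') l') l := by
  induction l generalizing G with
  | nil => simp
  | cons u l ih =>
    simp only [se_cons, mul_sub, se_sub]
    have e1 : se (fun z l' => f z * (g u * G l')) l = g u * se (fun z l' => f z * G l') l := by
      rw [← se_mul_left]; congr 1; ext z l'; ring
    have e2 : se (fun z l' => g z * (f u * G l')) l = f u * se (fun z l' => g z * G l') l := by
      rw [← se_mul_left]; congr 1; ext z l'; ring
    rw [e1, e2, ih (G := fun l'' => G (u :: l''))]
    ring

lemma se_se_self (f : ι → R) (G : List ι → R) (l : List ι) :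
    se (fun z l' => f z * se (fun w l'' => f w * G l'') l') l = 0 := by
  induction l generalizing G with
  | nil => simp
  | cons u l ih =>
    simp only [se_cons, mul_sub, se_sub]
    have e1 : se (fun z l' => f z * (f u * G l')) l = f u * se (fun z l' => f z * G l') l := by
      rw [← se_mul_left]; congr 1; ext z l'; ring
    rw [e1, ih (G := fun l'' => G (u :: l''))]
    ring

/-- the Pfaffian is alternating -/
theorem pfk_alt {a : ι → ι → R} (ha : ∀ i j, a i j = - a j i) (k : ℕ) : Alt (pfk a k) := by
  induction k with
  | zero =>
    intro l₁ x y l₂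
    cases l₁ <;> simp
  | succ k ih =>
    intro l₁ x y l₂
    cases l₁ with
    | nil =>
      simp only [List.nil_append, pfk_succ_cons, se_cons]
      rw [ha x y]
      have e : se (fun z l' => a x z * pfk a k (y :: l')) l₂ =
          - se (fun z l' => a y z * pfk a k (x :: l')) l₂ := by
        cases k with
        | zero => simp [se_zero]
        | succ k => simp only [pfk_succ_cons]; exact se_se_swap (a x) (a y) (pfk a k) l₂
      rw [e]; ring
    | cons w l₁ =>
      simp only [List.cons_append, pfk_succ_cons]
      refine se_alt (F := fun y l' => a w y * pfk a k l') (fun z l₁ x y l₂ => ?_) l₁ x y l₂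
      simp only [ih l₁ x y l₂]
      ring

theorem pfk_dup {a : ι → ι → R} (h0 : ∀ i, a i i = 0) (k : ℕ) :
    Dup (pfk a k) := by
  induction k with
  | zero =>
    intro l₁ x l₂
    cases l₁ <;> simp
  | succ k ih =>
    intro l₁ x l₂
    cases l₁ with
    | nil =>
      simp only [List.nil_append, pfk_succ_cons, se_cons]
      rw [h0 x]
      have e : se (fun z l' => a x z * pfk a k (x :: l')) l₂ = 0 := by
        cases k with
        | zero => simp [se_zero]
        | succ k => simp only [pfk_succ_cons]; exact se_se_self (a x) (pfk a k) l₂
      rw [e]; ring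
    | cons w l₁ =>
      simp only [List.cons_append, pfk_succ_cons]
      refine se_dup (F := fun y l' => a w y * pfk a k l') (fun z l₁ x l₂ => ?_) l₁ x l₂
      simp only [ih l₁ x l₂]
      ring

lemma Alt.perm {G : List ι → R} (hG : Alt G) {l l' : List ι} (h : l.Perm l') :
    G l = G l' ∨ G l = - G l' := by
  induction h generalizing G with
  | nil => exact Or.inl rfl
  | cons x _ ih => exact ih (hG.cons x)
  | swap x y l => exact Or.inr (hG [] y x l)
  | trans _ _ ih1 ih2 =>
    rcases ih1 hG with h1 | h1 <;> rcases ih2 hG with h2 | h2 <;> rw [h1, h2] <;> simp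

lemma Alt.dup {G : List ι → R} (hG : Alt G) (hD : Dup G) {l : List ι} (h : ¬ l.Nodup) :
    G l = 0 := by
  classical
  obtain ⟨x, hx⟩ := List.exists_duplicate_iff_not_nodup.2 h
  have h1 : List.Sublist [x, x] l := List.duplicate_iff_sublist.1 hx
  obtain ⟨l', hl'⟩ := h1.exists_perm_append
  have h2 := hG.perm hl'
  have h3 : G ([x, x] ++ l') = 0 := hD [] x l'
  rw [h3] at h2
  simpa using h2

/-- length of the list -/
lemma pfk_eq_zero_of_length {a : ι → ι → R} {k : ℕ} {l : List ι} (h : l.length ≠ 2 * k) :
    pfk a k l = 0 := by
  induction k generalizing l with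
  | zero => cases l with
    | nil => simp at h
    | cons x l => rfl
  | succ k ih => cases l with
    | nil => rfl
    | cons x l =>
      rw [pfk_succ_cons, ← se_zero l]
      apply se_congr
      intro z l' hl
      rw [ih, mul_zero]
      intro h'
      apply h
      rw [List.length_cons, hl.length_eq, List.length_cons, h']
      ring

/-- linear syzygies: `i` new, `p` in the list -/
theorem pfk_relation {a : ι → ι → R} (ha : ∀ i j, a i j = - a j i) (h0 : ∀ i, a i i = 0)
    (k : ℕ) (l : List ι) (p : ι) (hp : p ∈ l) :
    se (fun z l' => a p z * pfk a k l') l = 0 := by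
  rw [← pfk_succ_cons]
  apply (pfk_alt ha (k + 1)).dup (pfk_dup h0 (k + 1))
  simp [hp]

/-- commutation of pair sums and alternating sums -/
lemma se_pe_comm (f : ι → R) (g : ι → ι → R) (G : List ι → R) (l : List ι) :
    se (fun y l' => f y * pe (fun u v l'' => g u v * G l'') l') l =
      pe (fun u v l' => g u v * se (fun y l'' => f y * G l'') l') l := by
  induction l generalizing G with
  | nil => simp
  | cons w l ih =>
    simp only [se_cons, pe_cons, mul_add, mul_sub, se_add]
    have hpe_sub : ∀ (F H : ι → ι → List ι → R) (l : List ι),
        pe (fun u v l' => F u v l' - H u v l') l = pe F l - pe H l := by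
      intro F H l
      induction l generalizing F H with
      | nil => simp
      | cons x l ih => rw [pe_cons, pe_cons, pe_cons, se_sub, ih]; ring
    have hpe_mul : ∀ (c : R) (F : ι → ι → List ι → R) (l : List ι),
        pe (fun u v l' => c * F u v l') l = c * pe F l := by
      intro c F l
      induction l generalizing F with
      | nil => simp
      | cons x l ih => rw [pe_cons, pe_cons, se_mul_left, ih]; ring
    rw [hpe_sub]
    have e1 : pe (fun u v l' => g u v * (f w * G l')) l =
        f w * pe (fun u v l' => g u v * G l') l := by
      rw [← hpe_mul]; congr 1; ext u v l'; ring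
    rw [e1, se_se_swap f (g w) G l, ih (G := fun l'' => G (w :: l''))]
    ring

lemma se_derivation {A : Type*} [CommRing A] [Algebra A R] (d : Derivation A R R)
    (F : ι → List ι → R) (l : List ι) : d (se F l) = se (fun y l' => d (F y l')) l := by
  induction l generalizing F with
  | nil => simp
  | cons y l ih => rw [se_cons, se_cons, map_sub, ih]

/-- derivative of a Pfaffian -/
theorem pfk_derivation {A : Type*} [CommRing A] [Algebra A R] (d : Derivation A R R)
    (a : ι → ι → R) (k : ℕ) (l : List ι) :
    d (pfk a (k + 1) l) = pe (fun y z l' => d (a y z) * pfk a k l') l := by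
  induction k generalizing l with
  | zero =>
    cases l with
    | nil => simp
    | cons x l =>
      rw [pfk_succ_cons, se_derivation, pe_cons]
      have e1 : pe (fun y z l' => d (a y z) * pfk a 0 (x :: l')) l = 0 := by
        have : (fun (y z : ι) (l' : List ι) => d (a y z) * pfk a 0 (x :: l')) =
          fun _ _ _ => (0 : R) := by
          ext y z l'; simp
        rw [this]
        have h0 := pe_mem (⊥ : AddSubgroup R) (F := fun _ _ _ => (0 : R)) (l := l)
          (fun _ _ _ _ => AddSubgroup.zero_mem _)
        simpa using h0
      rw [e1, add_zero]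
      apply se_congr
      intro z l' _
      cases l' with
      | nil => simp
      | cons w l' => simp
  | succ k ih =>
    cases l with
    | nil => simp
    | cons x l =>
      rw [pfk_succ_cons, se_derivation, pe_cons]
      have e1 : se (fun y l' => d (a x y * pfk a (k + 1) l')) l =
          se (fun y l' => d (a x y) * pfk a (k + 1) l') l +
          se (fun y l' => a x y * pe (fun u v l'' => d (a u v) * pfk a k l'') l') l := by
        rw [← se_add]
        congr 1
        ext y l'
        rw [Derivation.leibniz, ih l', smul_eq_mul, smul_eq_mul]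
        ring
      rw [e1, se_pe_comm]
      rfl

/-- ring homomorphisms -/
lemma map_pfk {S : Type*} [CommRing S] (φ : R →+* S) (a : ι → ι → R) (k : ℕ) (l : List ι) :
    φ (pfk a k l) = pfk (fun i j => φ (a i j)) k l := by
  have hse : ∀ (F : ι → List ι → R) (l : List ι), φ (se F l) = se (fun y l' => φ (F y l')) l := by
    intro F l
    induction l generalizing F with
    | nil => simp
    | cons y l ih => rw [se_cons, se_cons, map_sub, ih]
  induction k generalizing l with
  | zero => cases l <;> simp
  | succ k ih =>
    cases l with
    | nil => simp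
    | cons x l =>
      rw [pfk_succ_cons, pfk_succ_cons, hse]
      congr 1
      ext y l'
      rw [map_mul, ih]

end Pool.PF
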