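import Pool.Agent.Helper97.PF.Rew
import Pool.Agent.Helper90.SD.Cnt

/-!
# Forbidden cells of generic sub-Pfaffians (MP_381749_lc, sums of Pfaffians)
-/

namespace Pool.PF

open MvPolynomial Finset
open scoped ENNReal

variable {K : Type*} [Field K] {N k : ℕ}

lemma mkCell_eq {i j i' j' : Fin N} (h : i ≠ j) (h' : i' ≠ j')
    (e : mkCell i j h = mkCell i' j' h') : (i = i' ∧ j = j') ∨ (i = j' ∧ j = i') := by
  unfold mkCell at e
  split_ifs at e with h1 h2 h2 <;> simp only [Subtype.mk.injEq, Prod.mk.injEq] at e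
  · exact Or.inl e
  · exact Or.inr e
  · exact Or.inr ⟨e.2, e.1⟩
  · exact Or.inl ⟨e.2, e.1⟩

/-- forbidden cells -/
def IsForb (f : Fin (2 * k) → Fin N) (c : Cell N) : Prop :=
  ∃ (i : Fin N) (s : Fin (2 * k)) (hi : ∀ s', f s' ≠ i), (∀ s' < s, f s' < i) ∧ i < f s ∧
    c = mkCell i (f s.rev) (hi _).symm

/-- the set of forbidden cells -/
noncomputable def forb (f : Fin (2 * k) ↪o Fin N) : Finset (Cell N) := by
  classical exact Finset.univ.filter (IsForb f)

lemma mem_forb (f : Fin (2 * k) ↪o Fin N) (c : Cell N) : c ∈ forb f ↔ IsForb f c := by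
  classical
  unfold forb
  simp

/-- the number of forbidden cells -/
theorem card_forb (f : Fin (2 * k) ↪o Fin N) : #(forb f) = Pool.Agent.Helper90.SD.rho f := by
  classical
  unfold Pool.Agent.Helper90.SD.rho
  symm
  have hex : ∀ i ∈ ({i : Fin N | i ∉ Set.range f ∧ ∃ s, i < f s} : Finset (Fin N)),
      ∃ s, i < f s ∧ ∀ t < s, f t < i := by
    intro i hi
    rw [Finset.mem_filter] at hi
    exact Pool.Agent.Helper90.SD.exists_first f i hi.2.1 hi.2.2
  have hne : ∀ i ∈ ({i : Fin N | i ∉ Set.range f ∧ ∃ s, i < f s} : Finset (Fin N)),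
      ∀ s', f s' ≠ i := by
    intro i hi s' h
    rw [Finset.mem_filter] at hi
    exact hi.2.1 ⟨s', h⟩
  choose s hs using hex
  refine Finset.card_bij (fun i hi => mkCell i (f (s i hi).rev) (hne i hi _).symm) ?_ ?_ ?_
  · intro i hi
    rw [mem_forb]
    exact ⟨i, s i hi, hne i hi, (hs i hi).2, (hs i hi).1, rfl⟩
  · intro i hi i' hi' h
    rcases mkCell_eq _ _ h with h1 | h1
    · exact h1.1
    · exact absurd h1.1.symm (hne i hi _)
  · intro c hc
    rw [mem_forb] at hc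
    obtain ⟨i, t, hi, h1, h2, rfl⟩ := hc
    have hi' : i ∈ ({i : Fin N | i ∉ Set.range f ∧ ∃ s, i < f s} : Finset (Fin N)) := by
      rw [Finset.mem_filter]
      refine ⟨Finset.mem_univ _, ?_, ⟨t, h2⟩⟩
      rintro ⟨s', hs'⟩
      exact hi s' hs'
    refine ⟨i, hi', ?_⟩
    have hst : s i hi' = t := by
      rcases lt_trichotomy (s i hi') t with h | h | h
      · exact absurd (h1 _ h) (hs i hi').1.le.not_gt
      · exact h
      · exact absurd ((hs i hi').2 _ h) h2.le.not_gt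
    congr 2
    rw [hst]

lemma red_of_forb {τ : Type*} (γ : Cell N → τ) (u : τ →₀ ℕ) (f : Fin (2 * k) ↪o Fin N)
    (h : ∀ c ∈ forb f, u (γ c) = 0) : Red γ u f := by
  intro i s hi h1 h2
  apply h
  rw [mem_forb]
  exact ⟨i, s, hi, h1, h2, rfl⟩

lemma forb_of_red {τ : Type*} (γ : Cell N → τ) (u : τ →₀ ℕ) (f : Fin (2 * k) ↪o Fin N)
    (h : Red γ u f) : ∀ c ∈ forb f, u (γ c) = 0 := by
  intro c hc
  rw [mem_forb] at hc
  obtain ⟨i, s, hi, h1, h2, rfl⟩ := hc
  exact h i s hi h1 h2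

/-- straightening of multiples of generic sub-Pfaffians, in the variables `Cell N` -/
theorem gpf_hred (f : Fin (2 * k) ↪o Fin N) (μ : Cell N →₀ ℕ) :
    monomial μ (1 : K) * gpf K id k f ∈ Submodule.span K {p : MvPolynomial (Cell N) K |
      ∃ (ν : Cell N →₀ ℕ) (g : Fin (2 * k) ↪o Fin N), ν.degree = μ.degree ∧
        (∀ e ∈ forb g, ν e = 0) ∧ p = monomial ν 1 * gpf K id k g} := by
  refine reduce (K := K) (γ := (id : Cell N → Cell N)) Function.injective_id
    (fun ν => ν.degree = μ.degree) ?_ _ ?_ μ f f.strictMono rfl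
  · intro u c c' h
    rw [map_add, Finsupp.degree_single] at h ⊢
    exact h
  · intro u g hg hu hred
    exact Submodule.subset_span ⟨u, OrderEmbedding.ofStrictMono g hg, hu,
      forb_of_red id u (OrderEmbedding.ofStrictMono g hg) hred, rfl⟩

/-- the sum over the index sets -/
theorem sum_pow_card_forb_le (hk : 1 ≤ k) (θ : ℝ≥0∞) :
    ∑ f : Fin (2 * k) ↪o Fin N, θ ^ #(forb f) ≤
      ∑ j ∈ Finset.range (N - 2 * k + 1), (((2 * k - 1 + j).choose j : ℕ) : ℝ≥0∞) * θ ^ j := by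
  simp_rw [card_forb]
  have h : ∀ n : ℕ, 1 ≤ n → ∑ f : Fin n ↪o Fin N, θ ^ Pool.Agent.Helper90.SD.rho f ≤
      ∑ j ∈ Finset.range (N - n + 1), (((n - 1 + j).choose j : ℕ) : ℝ≥0∞) * θ ^ j := by
    intro n hn
    obtain ⟨n, rfl⟩ := Nat.exists_eq_add_of_le' hn
    have := Pool.Agent.Helper90.SD.sum_pow_rho_le (m := N) (k := n) θ
    simpa using this
  exact h (2 * k) (by omega)

end Pool.PF
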